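import Mathlib

/-!
# A game on coloured rows

States are triples `(z, f, m)` of rows.  At every edge the rows are coloured by `c : ℤ → Bool` and a
Boolean `t` selects the colour that moves.
-/

namespace Pool.Agent.MP_e211d6_la

/-- main row, pending row, minimal row -/
abbrev St := ℤ × ℤ × ℤ

/-- one edge -/
def stp (c : ℤ → Bool) (t : Bool) (s : St) : St :=
  (s.1 + (if c s.1 = t then 1 else 0),
   s.1 + (if c s.1 = t then 0 else 1),
   min (s.2.2 + (if c s.2.2 = t then 1 else 0)) (s.2.1 + (if c s.2.1 = t then 0 else 1)))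

theorem mv_mono (c : ℤ → Bool) (t : Bool) {u v : ℤ} (h : u ≤ v) :
    u + (if c u = t then 1 else 0) ≤ v + (if c v = t then 1 else 0) := by
  rcases eq_or_lt_of_le h with rfl | h
  · exact le_rfl
  · split_ifs <;> omega

theorem st_mono (c : ℤ → Bool) (t : Bool) {u v : ℤ} (h : u ≤ v) :
    u + (if c u = t then 0 else 1) ≤ v + (if c v = t then 0 else 1) := by
  rcases eq_or_lt_of_le h with rfl | h
  · exact le_rfl
  · split_ifs <;> omega

theorem stp_mono (c : ℤ → Bool) (t : Bool) {s s' : St} (h : s ≤ s') : stp c t s ≤ stp c t s' := by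
  obtain ⟨z, f, m⟩ := s
  obtain ⟨z', f', m'⟩ := s'
  simp only [Prod.mk_le_mk] at h
  obtain ⟨h1, h2, h3⟩ := h
  refine Prod.mk_le_mk.2 ⟨mv_mono c t h1, Prod.mk_le_mk.2 ⟨st_mono c t h1, ?_⟩⟩
  exact min_le_min (mv_mono c t h3) (st_mono c t h2)

/-- a state from which the chooser can reach a final value at least `T` after `e` further edges -/
def Win (c : ℕ → ℤ → Bool) : ℕ → ℕ → St → ℤ → Prop
  | 0, _, s, T => T ≤ min s.2.1 s.2.2
  | e + 1, j, s, T => ∃ t : Bool, Win c e (j + 1) (stp (c j) t s) T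

theorem Win.mono (c : ℕ → ℤ → Bool) (e : ℕ) : ∀ {j : ℕ} {s s' : St} {T T' : ℤ}, s ≤ s' → T' ≤ T →
    Win c e j s T → Win c e j s' T' := by
  induction e with
  | zero =>
    intro j s s' T T' hs hT h
    obtain ⟨z, f, m⟩ := s
    obtain ⟨z', f', m'⟩ := s'
    simp only [Prod.mk_le_mk] at hs
    simp only [Win] at h ⊢
    exact hT.trans (h.trans (min_le_min hs.2.1 hs.2.2))
  | succ e ih =>
    intro j s s' T T' hs hT h
    obtain ⟨t, ht⟩ := h
    exact ⟨t, ih (stp_mono (c j) t hs) hT ht⟩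

/-- translate by a base row -/
def sh (b : ℤ) (s : St) : St := (b + s.1, b + s.2.1, b + s.2.2)

theorem stp_sh (d e : ℤ → Bool) (t : Bool) (b : ℤ) (s : St) (h1 : d (b + s.1) = e s.1)
    (h2 : d (b + s.2.1) = e s.2.1) (h3 : d (b + s.2.2) = e s.2.2) :
    stp d t (sh b s) = sh b (stp e t s) := by
  simp only [stp, sh, h1, h2, h3, add_assoc, min_add_add_left]

/-- the colouring of the window `{-1, 0, 1, 2}` -/
def col (p q r u : Bool) (k : ℤ) : Bool :=
  if k = -1 then p else if k = 0 then q else if k = 1 then r else u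

/-- the ten sets of states -/
def Nd : Fin 10 → List St
  | 0 => [(0, 0, 0)]
  | 1 => [(0, 1, 0), (1, 0, 0)]
  | 2 => [(1, 0, 1), (1, 2, 0), (2, 1, 0)]
  | 3 => [(1, 2, -1), (2, 1, 0)]
  | 4 => [(1, 2, 0)]
  | 5 => [(0, 1, -1), (1, 0, 0)]
  | 6 => [(0, 1, 0), (1, 0, -1)]
  | 7 => [(1, 2, 0), (2, 1, 0)]
  | 8 => [(1, 0, 1), (1, 2, -1), (2, 1, 0)]
  | 9 => [(1, 0, 1), (1, 2, 0)]

/-- the potentials -/
def al : Fin 10 → ℤ
  | 0 => -2
  | 1 => 1
  | 2 => 4
  | 3 => 4
  | 4 => 2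
  | 5 => 1
  | 6 => 0
  | 7 => 4
  | 8 => 4
  | 9 => 3

/-- the next set of states and the shift of the base row -/
def nx (p q r u : Bool) : Fin 10 → Fin 10 × ℤ
  | 0 => (1, 0)
  | 1 => (2, 0)
  | 2 => if q = u then (3, 1) else (4, 1)
  | 3 => if q = u then (3, 1) else (4, 1)
  | 4 => if q = r then (5, 1) else (6, 1)
  | 5 => (7, 0)
  | 6 => if p = r then (8, 0) else (9, 0)
  | 7 => if q = u then (3, 1) else (4, 1)
  | 8 => if q = u then (3, 1) else (4, 1)
  | 9 => (1, 1)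

theorem key_al (p q r u : Bool) (i : Fin 10) :
    al i ≤ al (nx p q r u i).1 + 5 * (nx p q r u i).2 - 3 := by
  revert p q r u i
  decide

theorem key_dom (p q r u : Bool) (i : Fin 10) :
    ∀ s' ∈ Nd (nx p q r u i).1, ∃ s ∈ Nd i, ∃ t : Bool,
      (sh (nx p q r u i).2 s').1 ≤ (stp (col p q r u) t s).1 ∧
      (sh (nx p q r u i).2 s').2.1 ≤ (stp (col p q r u) t s).2.1 ∧
      (sh (nx p q r u i).2 s').2.2 ≤ (stp (col p q r u) t s).2.2 := by
  revert p q r u i
  decide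

theorem key_win (i : Fin 10) : ∀ s ∈ Nd i, (-1 ≤ s.1 ∧ s.1 ≤ 2) ∧ (-1 ≤ s.2.1 ∧ s.2.1 ≤ 2) ∧
    (-1 ≤ s.2.2 ∧ s.2.2 ≤ 2) := by
  revert i
  decide

theorem key_base (i : Fin 10) : ∃ s ∈ Nd i, al i / 5 ≤ min s.2.1 s.2.2 := by
  revert i
  decide

theorem col_eq (d : ℤ → Bool) (b k : ℤ) (h : -1 ≤ k ∧ k ≤ 2) :
    d (b + k) = col (d (b - 1)) (d b) (d (b + 1)) (d (b + 2)) k := by
  obtain ⟨h1, h2⟩ := h
  have : k = -1 ∨ k = 0 ∨ k = 1 ∨ k = 2 := by omega
  rcases this with rfl | rfl | rfl | rfl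
  · simp [col, sub_eq_add_neg]
  · simp [col]
  · simp [col]
  · simp [col]

theorem node_win (c : ℕ → ℤ → Bool) (e : ℕ) : ∀ (i : Fin 10) (j : ℕ) (b : ℤ),
    ∃ s ∈ Nd i, Win c e j (sh b s) (b + (3 * (e : ℤ) + al i) / 5) := by
  induction e with
  | zero =>
    intro i j b
    obtain ⟨s, hs, h⟩ := key_base i
    refine ⟨s, hs, ?_⟩
    simp only [Win, sh, min_add_add_left]
    simpa using h
  | succ e ih =>
    intro i j b
    set d := c j with hd
    set p := d (b - 1)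
    set q := d b
    set r := d (b + 1)
    set u := d (b + 2)
    obtain ⟨s', hs', hw⟩ := ih (nx p q r u i).1 (j + 1) (b + (nx p q r u i).2)
    obtain ⟨s, hs, t, h1, h2, h3⟩ := key_dom p q r u i s' hs'
    refine ⟨s, hs, t, ?_⟩
    obtain ⟨k1, k2, k3⟩ := key_win i s hs
    rw [stp_sh (c j) (col p q r u) t b s (col_eq _ _ _ k1) (col_eq _ _ _ k2) (col_eq _ _ _ k3)]
    refine Win.mono c e ?_ ?_ hw
    · simp only [sh] at h1 h2 h3 ⊢
      refine Prod.mk_le_mk.2 ⟨by omega, Prod.mk_le_mk.2 ⟨by omega, by omega⟩⟩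
    · have := key_al p q r u i
      push_cast
      omega

/-- the chooser can reach `(3 e - 2) / 5` -/
theorem game (c : ℕ → ℤ → Bool) (e : ℕ) : Win c e 0 (0, 0, 0) ((3 * (e : ℤ) - 2) / 5) := by
  obtain ⟨s, hs, h⟩ := node_win c e 0 0 0
  simp only [Nd, List.mem_singleton] at hs
  subst hs
  simpa [sh, al, sub_eq_add_neg] using h

/-- the run of the game -/
def run (c : ℕ → ℤ → Bool) (t : ℕ → Bool) : ℕ → St
  | 0 => (0, 0, 0)
  | j + 1 => stp (c j) (t j) (run c t j)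

/-- the run from an arbitrary state at time `j` -/
def runFrom (c : ℕ → ℤ → Bool) (t : ℕ → Bool) : ℕ → ℕ → St → St
  | 0, _, s => s
  | e + 1, j, s => runFrom c t e (j + 1) (stp (c j) (t j) s)

theorem runFrom_congr (c : ℕ → ℤ → Bool) (e : ℕ) : ∀ (t t' : ℕ → Bool) (j : ℕ) (s : St),
    (∀ i, j ≤ i → t i = t' i) → runFrom c t e j s = runFrom c t' e j s := by
  induction e with
  | zero => intro t t' j s _; rfl
  | succ e ih =>
    intro t t' j s h
    simp only [runFrom]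
    rw [h j le_rfl]
    exact ih t t' (j + 1) _ fun i hi => h i (by omega)

theorem Win.exists (c : ℕ → ℤ → Bool) (e : ℕ) : ∀ (j : ℕ) (s : St) (T : ℤ), Win c e j s T →
    ∃ t : ℕ → Bool, T ≤ min (runFrom c t e j s).2.1 (runFrom c t e j s).2.2 := by
  induction e with
  | zero => intro j s T h; exact ⟨fun _ => false, h⟩
  | succ e ih =>
    intro j s T h
    obtain ⟨t0, h⟩ := h
    obtain ⟨t, ht⟩ := ih (j + 1) _ T h
    refine ⟨Function.update t j t0, ?_⟩
    simp only [runFrom, Function.update_self]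
    rw [runFrom_congr c e (Function.update t j t0) t (j + 1)]
    · exact ht
    · intro i hi
      rw [Function.update_of_ne (by omega)]

theorem runFrom_run (c : ℕ → ℤ → Bool) (t : ℕ → Bool) (e : ℕ) : ∀ j,
    runFrom c t e j (run c t j) = run c t (j + e) := by
  induction e with
  | zero => intro j; rfl
  | succ e ih =>
    intro j
    have := ih (j + 1)
    simp only [runFrom]
    rw [show j + (e + 1) = j + 1 + e by omega, ← this]
    rfl

theorem game_run (c : ℕ → ℤ → Bool) (e : ℕ) : ∃ t : ℕ → Bool,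
    (3 * (e : ℤ) - 2) / 5 ≤ min (run c t e).2.1 (run c t e).2.2 := by
  obtain ⟨t, ht⟩ := Win.exists c e 0 _ _ (game c e)
  refine ⟨t, ?_⟩
  have := runFrom_run c t e 0
  rw [zero_add] at this
  rw [← this]
  exact ht

end Pool.Agent.MP_e211d6_la
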