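import Pool.Agent.Lib_MP_e211d6_la.Walk

/-!
# Linear algebra: a chain excludes a separating functional
-/

open Matrix

namespace Pool.Agent.MP_e211d6_la

theorem pm_sq {x : ℝ} (h : x = 1 ∨ x = -1) : x * x = 1 := by
  rcases h with rfl | rfl <;> norm_num

theorem pm_mul {x y : ℝ} (h : x = 1 ∨ x = -1) (h' : y = 1 ∨ y = -1) : x * y = 1 ∨ x * y = -1 := by
  rcases h with rfl | rfl <;> rcases h' with rfl | rfl <;> norm_num

theorem pm_prod {ι : Type*} (s : Finset ι) (f : ι → ℝ) (h : ∀ i, f i = 1 ∨ f i = -1) :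
    ∏ i ∈ s, f i = 1 ∨ ∏ i ∈ s, f i = -1 := by
  classical
  induction s using Finset.induction_on with
  | empty => simp
  | insert a s ha ih => rw [Finset.prod_insert ha]; exact pm_mul (h a) ih

theorem det_rel {d : ℕ} (w : Fin (d + 2) → Fin (d + 1) → ℝ) (y : Fin (d + 1) → ℝ) :
    ∑ k : Fin (d + 2), (-1) ^ (k : ℕ) * (w k ⬝ᵥ y) *
      Matrix.det (Matrix.of fun l m => w (k.succAbove l) m) = 0 := by
  set N : Matrix (Fin (d + 2)) (Fin (d + 2)) ℝ :=
    Matrix.of fun k l => (Fin.cons (w k ⬝ᵥ y) (w k) : Fin (d + 2) → ℝ) l with hN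
  have h0 : N.det = 0 := by
    rw [← Matrix.exists_mulVec_eq_zero_iff]
    refine ⟨(Fin.cons 1 (-y) : Fin (d + 2) → ℝ), ?_, ?_⟩
    · intro h
      have := congrFun h 0
      simp at this
    · funext k
      simp only [Matrix.mulVec, dotProduct, Fin.sum_univ_succ (n := d + 1), hN, Matrix.of_apply,
        Fin.cons_zero, Fin.cons_succ, Pi.neg_apply, mul_neg, mul_one, Finset.sum_neg_distrib,
        Pi.zero_apply]
      ring
  rw [Matrix.det_succ_column_zero] at h0
  rw [← h0]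
  refine Finset.sum_congr rfl fun k _ => ?_
  congr 1

theorem chain_zero {d n : ℕ} (v : Fin n → Fin (d + 1) → ℝ) (A : Fin (d + 1) → Fin n → ℝ)
    (hA : ∀ k j, A k j = 1 ∨ A k j = -1)
    (hdet : ∀ i : Fin (d + 1) → Fin n, StrictMono i →
      0 < (∏ k, A k (i k)) * Matrix.det (Matrix.of fun k l => v (i k) l))
    (s : Fin (d + 2) → Fin n) (hs : StrictMono s) (τ : Fin n → ℝ) (hτ : ∀ j, τ j = 1 ∨ τ j = -1)
    (hc : ∀ k : Fin (d + 1),
      τ (s k.castSucc) * A k (s k.castSucc) * (τ (s k.succ) * A k (s k.succ)) = -1)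
    (y : Fin (d + 1) → ℝ) (hF : ∀ k, 0 ≤ (v (s k) ⬝ᵥ y) * τ (s k)) :
    ∀ k, v (s k) ⬝ᵥ y = 0 := by
  set D : Fin (d + 2) → ℝ := fun k => Matrix.det (Matrix.of fun l m => v (s (k.succAbove l)) m)
    with hD
  set P : Fin (d + 2) → ℝ := fun k => ∏ l, A l (s (k.succAbove l)) with hP
  have hPD : ∀ k, 0 < P k * D k := fun k => hdet _ (hs.comp (Fin.strictMono_succAbove k))
  have hPpm : ∀ k, P k = 1 ∨ P k = -1 := fun k => pm_prod _ _ fun l => hA _ _
  have hrel : ∑ k : Fin (d + 2), (-1) ^ (k : ℕ) * (v (s k) ⬝ᵥ y) * D k = 0 :=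
    det_rel (fun k => v (s k)) y
  set g : Fin (d + 2) → ℝ := fun k => (-1) ^ (k : ℕ) * τ (s k) * P k with hg
  have hgpm : ∀ k, g k = 1 ∨ g k = -1 := fun k =>
    pm_mul (pm_mul (neg_one_pow_eq_or ℝ _) (hτ _)) (hPpm k)
  have hPP : ∀ k : Fin (d + 1), P k.castSucc * P k.succ = A k (s k.succ) * A k (s k.castSucc) := by
    intro k
    simp only [hP]
    rw [← Finset.prod_mul_distrib, Finset.prod_eq_single k]
    · rw [Fin.succAbove_castSucc_self, Fin.succAbove_succ_self]
    · intro l _ hl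
      have : k.castSucc.succAbove l = k.succ.succAbove l := by
        rcases lt_or_gt_of_ne hl with h | h
        · rw [Fin.succAbove_castSucc_of_lt _ _ h, Fin.succAbove_succ_of_le _ _ h.le]
        · rw [Fin.succAbove_castSucc_of_le _ _ h.le, Fin.succAbove_succ_of_lt _ _ h]
      rw [this]
      exact pm_sq (hA _ _)
    · simp
  have hgg : ∀ k : Fin (d + 1), g k.castSucc = g k.succ := by
    intro k
    have h1 : g k.castSucc * g k.succ = 1 := by
      simp only [hg, Fin.val_castSucc, Fin.val_succ]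
      have e1 : ((-1 : ℝ) ^ (k : ℕ)) * (-1) ^ (k : ℕ) = 1 := pm_sq (neg_one_pow_eq_or ℝ _)
      have e2 := hPP k
      have e3 := hc k
      calc (-1 : ℝ) ^ (k : ℕ) * τ (s k.castSucc) * P k.castSucc *
            ((-1) ^ ((k : ℕ) + 1) * τ (s k.succ) * P k.succ)
          = -(((-1 : ℝ) ^ (k : ℕ)) * (-1) ^ (k : ℕ)) * (P k.castSucc * P k.succ) *
            (τ (s k.castSucc) * τ (s k.succ)) := by ring
        _ = -(τ (s k.castSucc) * A k (s k.castSucc) * (τ (s k.succ) * A k (s k.succ))) := by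
            rw [e1, e2]; ring
        _ = 1 := by rw [e3]; norm_num
    have h2 := pm_sq (hgpm k.succ)
    have h3 : g k.castSucc * (g k.succ * g k.succ) = g k.succ := by
      rw [← mul_assoc, h1, one_mul]
    rw [h2, mul_one] at h3
    exact h3
  have hg0 : ∀ k, g k = g 0 := by
    intro k
    induction k using Fin.induction with
    | zero => rfl
    | succ k ih => rw [← hgg, ih]
  have hterm : ∀ k : Fin (d + 2), (-1) ^ (k : ℕ) * (v (s k) ⬝ᵥ y) * D k * g 0 =
      (v (s k) ⬝ᵥ y) * τ (s k) * (P k * D k) := by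
    intro k
    rw [← hg0 k]
    simp only [hg]
    have e1 : ((-1 : ℝ) ^ (k : ℕ)) * (-1) ^ (k : ℕ) = 1 := pm_sq (neg_one_pow_eq_or ℝ _)
    calc (-1 : ℝ) ^ (k : ℕ) * (v (s k) ⬝ᵥ y) * D k * ((-1) ^ (k : ℕ) * τ (s k) * P k)
        = ((-1 : ℝ) ^ (k : ℕ) * (-1) ^ (k : ℕ)) * ((v (s k) ⬝ᵥ y) * τ (s k) * (P k * D k)) := by
          ring
      _ = _ := by rw [e1, one_mul]
  have hsum : ∑ k : Fin (d + 2), (v (s k) ⬝ᵥ y) * τ (s k) * (P k * D k) = 0 := by
    rw [← Finset.sum_congr rfl fun k _ => hterm k, ← Finset.sum_mul, hrel, zero_mul]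
  rw [Finset.sum_eq_zero_iff_of_nonneg fun k _ => mul_nonneg (hF k) (hPD k).le] at hsum
  intro k
  have := hsum k (Finset.mem_univ k)
  rcases mul_eq_zero.1 this with h | h
  · rcases mul_eq_zero.1 h with h | h
    · exact h
    · rcases hτ (s k) with h' | h' <;> rw [h'] at h <;> norm_num at h
  · exact absurd h (hPD k).ne'

/-- Boolean signs as reals -/
def sg (b : Bool) : ℝ := if b then 1 else -1

theorem sg_pm (b : Bool) : sg b = 1 ∨ sg b = -1 := by
  cases b <;> simp [sg]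

theorem sg_not (b : Bool) : sg (!b) = - sg b := by
  cases b <;> simp [sg]

theorem sg_ne {p q r s : Bool} (h : xor p q ≠ xor r s) : sg p * sg q * (sg r * sg s) = -1 := by
  revert h
  cases p <;> cases q <;> cases r <;> cases s <;> simp [sg]

/-- the Boolean table of a real sign table -/
noncomputable def tab {d n : ℕ} (A : Fin (d + 1) → Fin n → ℝ) (k j : ℕ) : Bool :=
  if h : k < d + 1 ∧ j < n then decide (A ⟨k, h.1⟩ ⟨j, h.2⟩ = 1) else false

theorem sg_tab {d n : ℕ} (A : Fin (d + 1) → Fin n → ℝ) (hA : ∀ k j, A k j = 1 ∨ A k j = -1)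
    (k : Fin (d + 1)) (j : Fin n) : sg (tab A k j) = A k j := by
  have h : (k : ℕ) < d + 1 ∧ (j : ℕ) < n := ⟨k.2, j.2⟩
  rw [tab, dif_pos h]
  rcases hA k j with h' | h'
  · simp [sg, h']
  · simp only [sg, h', Fin.eta]; norm_num

/-- If the walker makes at least `d+1` moves, then no functional is weakly compatible with the
signs, except when it vanishes on `d + 2` elements. -/
theorem chain_elems {d n : ℕ} (v : Fin n → Fin (d + 1) → ℝ) (A : Fin (d + 1) → Fin n → ℝ)
    (hA : ∀ k j, A k j = 1 ∨ A k j = -1)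
    (hdet : ∀ i : Fin (d + 1) → Fin n, StrictMono i →
      0 < (∏ k, A k (i k)) * Matrix.det (Matrix.of fun k l => v (i k) l))
    (τ : ℕ → Bool) (hn : 1 ≤ n) (hr : d + 1 ≤ row (tab A) τ (n - 1)) (y : Fin (d + 1) → ℝ)
    (hF : ∀ j : Fin n, 0 ≤ (v j ⬝ᵥ y) * sg (τ j)) :
    ∃ s : Fin (d + 2) → Fin n, StrictMono s ∧ ∀ k, v (s k) ⬝ᵥ y = 0 := by
  obtain ⟨s, h1, h2, h3, -⟩ := chain (tab A) τ (n - 1)
  have hle : ∀ m i, i + m ≤ row (tab A) τ (n - 1) → s i ≤ s (i + m) := by
    intro m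
    induction m with
    | zero => intro i _; exact le_rfl
    | succ m ih =>
      intro i hi
      have := ih i (by omega)
      have := h1 (i + m) (by omega)
      rw [← add_assoc]
      omega
  have hlt : ∀ k : Fin (d + 2), s k < n := by
    intro k
    have hk := k.2
    have := hle (row (tab A) τ (n - 1) - k) k (by omega)
    rw [show (k : ℕ) + (row (tab A) τ (n - 1) - k) = row (tab A) τ (n - 1) by omega] at this
    omega
  have hmono : StrictMono fun k : Fin (d + 2) => (⟨s k, hlt k⟩ : Fin n) := by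
    rw [Fin.strictMono_iff_lt_succ]
    intro k
    rw [Fin.mk_lt_mk, Fin.val_castSucc, Fin.val_succ]
    exact h1 k (by have := k.2; omega)
  refine ⟨fun k => ⟨s k, hlt k⟩, hmono, ?_⟩
  refine chain_zero v A hA hdet _ hmono (fun j => sg (τ j)) (fun j => sg_pm _) ?_ y ?_
  · intro k
    have h4 := sg_ne (h3 k (by have := k.2; omega))
    have e1 := sg_tab A hA k ⟨s k, hlt k.castSucc⟩
    have e2 := sg_tab A hA k ⟨s (k + 1), hlt k.succ⟩
    simp only at e1 e2
    rw [e1, e2] at h4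
    exact h4
  · intro k
    exact hF _

end Pool.Agent.MP_e211d6_la
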