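import Pool.Agent.Lib_MP_e211d6_la.Walk

/-!
# The adversary's table
-/

namespace Pool.Agent.MP_e211d6_la

/-- the table of the adversary -/
def adv (k j : ℕ) : Bool := if k = 0 then true else decide (min j ((5 * k + 4) / 3) % 2 = 0)

theorem cc_adv (j : ℕ) (k : ℤ) : cc adv j k = decide (1 ≤ k ∧ 3 * (j : ℤ) < 5 * k + 2) := by
  by_cases hk : 1 ≤ k
  · have h0 : k.toNat ≠ 0 := by omega
    simp only [cc, adv, if_neg h0]
    by_cases h : 3 * (j : ℤ) < 5 * k + 2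
    · rw [decide_eq_true (p := 1 ≤ k ∧ 3 * (j : ℤ) < 5 * k + 2) ⟨hk, h⟩]
      have e1 : min j ((5 * k.toNat + 4) / 3) = j := by omega
      have e2 : min (j + 1) ((5 * k.toNat + 4) / 3) = j + 1 := by omega
      rw [e1, e2]
      rcases Nat.mod_two_eq_zero_or_one j with h1 | h1
      · have h2 : (j + 1) % 2 = 1 := by omega
        simp [h1, h2]
      · have h2 : (j + 1) % 2 = 0 := by omega
        simp [h1, h2]
    · rw [decide_eq_false (p := 1 ≤ k ∧ 3 * (j : ℤ) < 5 * k + 2) (fun h' => h h'.2)]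
      have e1 : min j ((5 * k.toNat + 4) / 3) = (5 * k.toNat + 4) / 3 := by omega
      have e2 : min (j + 1) ((5 * k.toNat + 4) / 3) = (5 * k.toNat + 4) / 3 := by omega
      rw [e1, e2]
      simp
  · have h0 : k.toNat = 0 := by omega
    rw [decide_eq_false (fun h' => hk h'.1)]
    simp [cc, adv, h0]

/-- the two families of sets of states -/
def Q (b c : ℤ) (s : St) : Prop :=
  (s.1 - b) + (s.2.2 - b) ≤ c ∧ (s.2.1 - b) - 1 + (s.2.2 - b) ≤ c ∧ 1 + (s.2.2 - b) ≤ c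

def R (b x y w : ℤ) (s : St) : Prop := s.1 - b ≤ x ∧ s.2.1 - b ≤ y ∧ s.2.2 - b ≤ w

def I1 (b : ℤ) (s : St) : Prop := R b 0 1 0 s ∨ R b 1 0 0 s ∨ Q b 0 s
def I2 (b : ℤ) (s : St) : Prop := R b 1 0 1 s ∨ R b 2 1 0 s ∨ Q b 1 s
def I3 (b : ℤ) (s : St) : Prop := Q b 1 s
def I4 (b : ℤ) (s : St) : Prop := R b 0 1 0 s ∨ Q b 0 s
def I5 (b : ℤ) (s : St) : Prop := R b 1 0 1 s ∨ Q b 1 s

theorem step_aux (c : ℤ → Bool) (b : ℤ) (hc : ∀ k, c k = decide (b < k)) (t : Bool) (z f m : ℤ) :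
    ∃ z' f' m', stp c t (z, f, m) = (z', f', m') ∧
      ((z' = z ∧ f' = z + 1) ∨ (z' = z + 1 ∧ f' = z)) ∧
      ((t = false ∧ (z ≤ b → z' = z + 1) ∧ (b < z → z' = z) ∧
        (m ≤ b → m' ≤ m + 1) ∧ (b < m → m' ≤ m) ∧ (f ≤ b → m' ≤ f) ∧ (b < f → m' ≤ f + 1)) ∨
      (t = true ∧ (z ≤ b → z' = z) ∧ (b < z → z' = z + 1) ∧
        (m ≤ b → m' ≤ m) ∧ (b < m → m' ≤ m + 1) ∧ (f ≤ b → m' ≤ f + 1) ∧ (b < f → m' ≤ f))) := by
  refine ⟨_, _, _, rfl, ?_, ?_⟩
  · simp only [hc]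
    cases t <;> by_cases h : b < z <;> simp [h]
  · simp only [hc]
    cases t
    · left
      refine ⟨rfl, ?_, ?_, ?_, ?_, ?_, ?_⟩ <;> intro h
      · simp [not_lt.2 h]
      · simp [h]
      · exact (min_le_left _ _).trans (by split_ifs <;> omega)
      · exact (min_le_left _ _).trans (by simp [h])
      · exact (min_le_right _ _).trans (by simp [not_lt.2 h])
      · exact (min_le_right _ _).trans (by split_ifs <;> omega)
    · right
      refine ⟨rfl, ?_, ?_, ?_, ?_, ?_, ?_⟩ <;> intro h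
      · simp [not_lt.2 h]
      · simp [h]
      · exact (min_le_left _ _).trans (by simp [not_lt.2 h])
      · exact (min_le_left _ _).trans (by split_ifs <;> omega)
      · exact (min_le_right _ _).trans (by split_ifs <;> omega)
      · exact (min_le_right _ _).trans (by simp [h])

theorem step12 (c : ℤ → Bool) (b : ℤ) (hc : ∀ k, c k = decide (b < k)) (t : Bool) (s : St)
    (h : I1 b s) : I2 b (stp c t s) := by
  obtain ⟨z, f, m⟩ := s
  obtain ⟨z', f', m', he, h1, h2⟩ := step_aux c b hc t z f m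
  rw [he]
  simp only [I1, I2, R, Q] at h ⊢
  omega

theorem step23 (c : ℤ → Bool) (b : ℤ) (hc : ∀ k, c k = decide (b < k)) (t : Bool) (s : St)
    (h : I2 b s) : I3 (b + 1) (stp c t s) := by
  obtain ⟨z, f, m⟩ := s
  obtain ⟨z', f', m', he, h1, h2⟩ := step_aux c b hc t z f m
  rw [he]
  simp only [I2, I3, R, Q] at h ⊢
  omega

theorem step34 (c : ℤ → Bool) (b : ℤ) (hc : ∀ k, c k = decide (b < k)) (t : Bool) (s : St)
    (h : I3 b s) : I4 (b + 1) (stp c t s) := by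
  obtain ⟨z, f, m⟩ := s
  obtain ⟨z', f', m', he, h1, h2⟩ := step_aux c b hc t z f m
  rw [he]
  simp only [I3, I4, R, Q] at h ⊢
  omega

theorem step45 (c : ℤ → Bool) (b : ℤ) (hc : ∀ k, c k = decide (b < k)) (t : Bool) (s : St)
    (h : I4 b s) : I5 b (stp c t s) := by
  obtain ⟨z, f, m⟩ := s
  obtain ⟨z', f', m', he, h1, h2⟩ := step_aux c b hc t z f m
  rw [he]
  simp only [I4, I5, R, Q] at h ⊢
  omega

theorem step51 (c : ℤ → Bool) (b : ℤ) (hc : ∀ k, c k = decide (b < k)) (t : Bool) (s : St)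
    (h : I5 b s) : I1 (b + 1) (stp c t s) := by
  obtain ⟨z, f, m⟩ := s
  obtain ⟨z', f', m', he, h1, h2⟩ := step_aux c b hc t z f m
  rw [he]
  simp only [I5, I1, R, Q] at h ⊢
  omega

theorem step01 (c : ℤ → Bool) (b : ℤ) (hc : ∀ k, c k = decide (b < k)) (t : Bool) :
    I1 b (stp c t (b, b, b)) := by
  obtain ⟨z', f', m', he, h1, h2⟩ := step_aux c b hc t b b b
  rw [he]
  simp only [I1, R, Q]
  omega

theorem hc_adv (j : ℕ) (b : ℤ) (h1 : 0 ≤ b) (h2 : 5 * b ≤ 3 * (j : ℤ) - 2)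
    (h3 : 3 * (j : ℤ) - 2 < 5 * (b + 1)) (k : ℤ) : cc adv j k = decide (b < k) := by
  rw [cc_adv]
  congr 1
  refine propext ⟨fun h => by omega, fun h => by omega⟩

theorem hc_adv0 (k : ℤ) : cc adv 0 k = decide ((0 : ℤ) < k) := by
  rw [cc_adv]
  congr 1
  refine propext ⟨fun h => by omega, fun h => by push_cast; omega⟩

theorem inv1 (t : ℕ → Bool) (q : ℕ) : I1 (3 * (q : ℤ)) (run (cc adv) t (5 * q + 1)) := by
  induction q with
  | zero =>
    have := step01 (cc adv 0) 0 hc_adv0 (t 0)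
    simpa [run] using this
  | succ q ih =>
    have h2 : I2 (3 * (q : ℤ)) (run (cc adv) t (5 * q + 1 + 1)) :=
      step12 _ _ (hc_adv _ _ (by omega) (by push_cast; omega) (by push_cast; omega)) _ _ ih
    have h3 : I3 (3 * (q : ℤ) + 1) (run (cc adv) t (5 * q + 1 + 1 + 1)) :=
      step23 _ _ (hc_adv _ _ (by omega) (by push_cast; omega) (by push_cast; omega)) _ _ h2
    have h4 : I4 (3 * (q : ℤ) + 1 + 1) (run (cc adv) t (5 * q + 1 + 1 + 1 + 1)) :=
      step34 _ _ (hc_adv _ _ (by omega) (by push_cast; omega) (by push_cast; omega)) _ _ h3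
    have h5 : I5 (3 * (q : ℤ) + 1 + 1) (run (cc adv) t (5 * q + 1 + 1 + 1 + 1 + 1)) :=
      step45 _ _ (hc_adv _ _ (by omega) (by push_cast; omega) (by push_cast; omega)) _ _ h4
    have h6 : I1 (3 * (q : ℤ) + 1 + 1 + 1) (run (cc adv) t (5 * q + 1 + 1 + 1 + 1 + 1 + 1)) :=
      step51 _ _ (hc_adv _ _ (by omega) (by push_cast; omega) (by push_cast; omega)) _ _ h5
    have e1 : (3 * ((q + 1 : ℕ) : ℤ)) = 3 * (q : ℤ) + 1 + 1 + 1 := by push_cast; ring
    have e2 : 5 * (q + 1) + 1 = 5 * q + 1 + 1 + 1 + 1 + 1 + 1 := by ring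
    rw [e1, e2]
    exact h6

theorem low_run (t : ℕ → Bool) (e : ℕ) (r : ℤ) (hr : 3 * (e : ℤ) - 2 < 5 * r) (hr0 : 1 ≤ r) :
    min (run (cc adv) t e).2.1 (run (cc adv) t e).2.2 < r := by
  rcases Nat.eq_zero_or_pos e with rfl | he
  · simp only [run, min_self]; omega
  obtain ⟨q, i, hi, rfl⟩ : ∃ q i : ℕ, i < 5 ∧ e = 5 * q + 1 + i :=
    ⟨(e - 1) / 5, (e - 1) % 5, Nat.mod_lt _ (by norm_num), by omega⟩
  have h1 := inv1 t q
  have h2 : I2 (3 * (q : ℤ)) (run (cc adv) t (5 * q + 1 + 1)) :=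
    step12 _ _ (hc_adv _ _ (by omega) (by push_cast; omega) (by push_cast; omega)) _ _ h1
  have h3 : I3 (3 * (q : ℤ) + 1) (run (cc adv) t (5 * q + 1 + 1 + 1)) :=
    step23 _ _ (hc_adv _ _ (by omega) (by push_cast; omega) (by push_cast; omega)) _ _ h2
  have h4 : I4 (3 * (q : ℤ) + 1 + 1) (run (cc adv) t (5 * q + 1 + 1 + 1 + 1)) :=
    step34 _ _ (hc_adv _ _ (by omega) (by push_cast; omega) (by push_cast; omega)) _ _ h3
  have h5 : I5 (3 * (q : ℤ) + 1 + 1) (run (cc adv) t (5 * q + 1 + 1 + 1 + 1 + 1)) :=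
    step45 _ _ (hc_adv _ _ (by omega) (by push_cast; omega) (by push_cast; omega)) _ _ h4
  rw [min_lt_iff]
  have hcases : i = 0 ∨ i = 1 ∨ i = 2 ∨ i = 3 ∨ i = 4 := by omega
  rcases hcases with rfl | rfl | rfl | rfl | rfl
  · rw [show 5 * q + 1 + 0 = 5 * q + 1 from rfl] at hr ⊢
    generalize run (cc adv) t (5 * q + 1) = s at h1
    obtain ⟨z, f, m⟩ := s
    simp only [I1, R, Q] at h1
    push_cast at hr
    show f < r ∨ m < r
    omega
  · generalize run (cc adv) t (5 * q + 1 + 1) = s at h2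
    obtain ⟨z, f, m⟩ := s
    simp only [I2, R, Q] at h2
    push_cast at hr
    show f < r ∨ m < r
    omega
  · rw [show 5 * q + 1 + 2 = 5 * q + 1 + 1 + 1 from rfl] at hr ⊢
    generalize run (cc adv) t (5 * q + 1 + 1 + 1) = s at h3
    obtain ⟨z, f, m⟩ := s
    simp only [I3, R, Q] at h3
    push_cast at hr
    show f < r ∨ m < r
    omega
  · rw [show 5 * q + 1 + 3 = 5 * q + 1 + 1 + 1 + 1 from rfl] at hr ⊢
    generalize run (cc adv) t (5 * q + 1 + 1 + 1 + 1) = s at h4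
    obtain ⟨z, f, m⟩ := s
    simp only [I4, R, Q] at h4
    push_cast at hr
    show f < r ∨ m < r
    omega
  · rw [show 5 * q + 1 + 4 = 5 * q + 1 + 1 + 1 + 1 + 1 from rfl] at hr ⊢
    generalize run (cc adv) t (5 * q + 1 + 1 + 1 + 1 + 1) = s at h5
    obtain ⟨z, f, m⟩ := s
    simp only [I5, R, Q] at h5
    push_cast at hr
    show f < r ∨ m < r
    omega

/-- every sign vector or one of its flips makes few moves in the adversary's table -/
theorem low_rows (d e : ℕ) (h : 3 * e < 5 * d + 7) (τ : ℕ → Bool) :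
    row adv τ e ≤ d ∨ ∃ i ≤ e, row adv (flp i τ) e ≤ d := by
  have := rows_of_run adv e (d + 1) τ (low_run (tt τ) e _ (by push_cast; omega) (by push_cast; omega))
  rcases this with h | ⟨i, hi, h⟩
  · left; omega
  · right; exact ⟨i, hi, by omega⟩

end Pool.Agent.MP_e211d6_la
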