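import Pool.Agent.Lib_MP_e211d6_la.Lin

/-!
# Realising sign tables by points
-/

open Matrix

namespace Pool.Agent.MP_e211d6_la

theorem perm_eq_one {m : ℕ} (σ : Equiv.Perm (Fin m)) (h : StrictMono σ) : σ = 1 := by
  have h' : StrictMono σ.symm := by
    intro i j hij
    by_contra hc
    have := h.monotone (not_lt.1 hc)
    simp only [Equiv.apply_symm_apply] at this
    exact absurd hij (not_lt.2 this)
  ext k
  have h1 : k ≤ σ k := h.le_apply
  have h2 : σ k ≤ σ.symm (σ k) := h'.le_apply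
  rw [Equiv.symm_apply_apply] at h2
  exact congrArg Fin.val (le_antisymm h2 h1)

theorem rearr {m n : ℕ} (i : Fin m → Fin n) (hi : StrictMono i) (σ : Equiv.Perm (Fin m))
    (hσ : σ ≠ 1) :
    ∑ k : Fin m, (k : ℕ) * (i (σ k) : ℕ) < ∑ k : Fin m, (k : ℕ) * (i k : ℕ) := by
  have hmono : Monovary (fun k : Fin m => ((k : ℕ) : ℤ)) (fun k : Fin m => ((i k : ℕ) : ℤ)) := by
    intro a b hab
    simp only [Nat.cast_lt, Fin.val_fin_lt] at hab
    have := (hi.lt_iff_lt.1 hab).le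
    simp only [Nat.cast_le, Fin.val_fin_le]
    exact this
  have h := (hmono.sum_mul_comp_perm_lt_sum_mul_iff (σ := σ)).2 ?_
  · exact_mod_cast h
  · intro hm
    refine hσ (perm_eq_one σ ?_)
    intro a b hab
    by_contra hc
    have hne : σ a ≠ σ b := fun h => hab.ne (σ.injective h)
    have hlt : σ b < σ a := lt_of_le_of_ne (not_lt.1 hc) (Ne.symm hne)
    have h3 : ((fun k : Fin m => ((i k : ℕ) : ℤ)) ∘ σ) b < ((fun k : Fin m => ((i k : ℕ) : ℤ)) ∘ σ) a := by
      simp only [Function.comp_apply, Nat.cast_lt, Fin.val_fin_lt]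
      exact hi hlt
    have h4 := hm h3
    simp only [Nat.cast_le, Fin.val_fin_le] at h4
    exact absurd hab (not_lt.2 h4)

/-- the sign of the minors -/
theorem det_pos {m n : ℕ} (A : Fin m → Fin n → ℝ) (hA : ∀ k j, A k j = 1 ∨ A k j = -1) (T : ℝ)
    (hT : (m.factorial : ℝ) ≤ T) (i : Fin m → Fin n) (hi : StrictMono i) :
    0 < (∏ k, A k (i k)) *
      Matrix.det (Matrix.of fun k l : Fin m => A l (i k) * T ^ ((l : ℕ) * (i k : ℕ))) := by
  have hfac : (1 : ℝ) ≤ m.factorial := by exact_mod_cast Nat.one_le_iff_ne_zero.2 m.factorial_ne_zero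
  have hT1 : 1 ≤ T := hfac.trans hT
  have hT0 : 0 < T := by linarith
  set E := ∑ k : Fin m, (k : ℕ) * (i k : ℕ) with hE
  rw [Matrix.det_apply', Finset.mul_sum]
  have hterm : ∀ σ : Equiv.Perm (Fin m), (∏ k, A k (i k)) *
      (((Equiv.Perm.sign σ : ℤ) : ℝ) * ∏ k, (Matrix.of fun k l : Fin m =>
        A l (i k) * T ^ ((l : ℕ) * (i k : ℕ))) (σ k) k) =
      ((∏ k, A k (i k)) * ((Equiv.Perm.sign σ : ℤ) : ℝ) * ∏ k, A k (i (σ k))) *
        T ^ (∑ k : Fin m, (k : ℕ) * (i (σ k) : ℕ)) := by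
    intro σ
    simp only [Matrix.of_apply]
    rw [Finset.prod_mul_distrib, Finset.prod_pow_eq_pow_sum]
    ring
  rw [Finset.sum_congr rfl fun σ _ => hterm σ,
    ← Finset.add_sum_erase _ _ (Finset.mem_univ (1 : Equiv.Perm (Fin m)))]
  have h1 : ((∏ k, A k (i k)) * ((Equiv.Perm.sign (1 : Equiv.Perm (Fin m)) : ℤ) : ℝ) *
      ∏ k, A k (i ((1 : Equiv.Perm (Fin m)) k))) *
        T ^ (∑ k : Fin m, (k : ℕ) * (i ((1 : Equiv.Perm (Fin m)) k) : ℕ)) = T ^ E := by
    simp only [Equiv.Perm.sign_one, Units.val_one, Int.cast_one, mul_one, Equiv.Perm.coe_one, id]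
    rw [pm_sq (pm_prod _ _ fun k => hA _ _), one_mul]
  rw [h1]
  have h2 : ∀ σ ∈ Finset.univ.erase (1 : Equiv.Perm (Fin m)),
      -(T ^ E / T) ≤ ((∏ k, A k (i k)) * ((Equiv.Perm.sign σ : ℤ) : ℝ) * ∏ k, A k (i (σ k))) *
        T ^ (∑ k : Fin m, (k : ℕ) * (i (σ k) : ℕ)) := by
    intro σ hσ
    have hlt := rearr i hi σ (Finset.ne_of_mem_erase hσ)
    have hs : ((Equiv.Perm.sign σ : ℤ) : ℝ) = 1 ∨ ((Equiv.Perm.sign σ : ℤ) : ℝ) = -1 := by
      rcases Int.units_eq_one_or (Equiv.Perm.sign σ) with h | h <;> rw [h] <;> simp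
    have hpm := pm_mul (pm_mul (pm_prod Finset.univ (fun k => A k (i k)) fun k => hA _ _) hs)
      (pm_prod Finset.univ (fun k => A k (i (σ k))) fun k => hA _ _)
    have hle : T ^ (∑ k : Fin m, (k : ℕ) * (i (σ k) : ℕ)) ≤ T ^ E / T := by
      rw [le_div_iff₀ hT0, ← pow_succ]
      exact pow_le_pow_right₀ hT1 hlt
    have hnn : 0 ≤ T ^ (∑ k : Fin m, (k : ℕ) * (i (σ k) : ℕ)) := by positivity
    rcases hpm with h | h <;> rw [h] <;> linarith
  have h3 := Finset.sum_le_sum h2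
  rw [Finset.sum_const, Finset.card_erase_of_mem (Finset.mem_univ _), Finset.card_univ,
    Fintype.card_perm, Fintype.card_fin, nsmul_eq_mul,
    Nat.cast_sub (Nat.one_le_iff_ne_zero.2 m.factorial_ne_zero)] at h3
  have hTE : 0 < T ^ E / T := by positivity
  have h4 : T ^ E = (T ^ E / T) * T := by field_simp
  have h5 : (T ^ E / T) * (m.factorial : ℝ) ≤ (T ^ E / T) * T :=
    mul_le_mul_of_nonneg_left hT hTE.le
  push_cast at h3
  nlinarith

/-- last column at which the walker is in a row `≤ κ` -/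
def lst (a : ℕ → ℕ → Bool) (τ : ℕ → Bool) (e κ : ℕ) : ℕ :=
  Nat.findGreatest (fun j => row a τ j ≤ κ) e

theorem row_lst (a : ℕ → ℕ → Bool) (τ : ℕ → Bool) (e κ : ℕ) : row a τ (lst a τ e κ) ≤ κ :=
  Nat.findGreatest_spec (P := fun j => row a τ j ≤ κ) (Nat.zero_le e) (Nat.zero_le κ)

theorem le_lst_iff (a : ℕ → ℕ → Bool) (τ : ℕ → Bool) {e j : ℕ} (κ : ℕ) (hj : j ≤ e) :
    j ≤ lst a τ e κ ↔ row a τ j ≤ κ :=
  ⟨fun h => (row_mono a τ h).trans (row_lst a τ e κ),
    fun h => Nat.le_findGreatest (P := fun j => row a τ j ≤ κ) hj h⟩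

theorem sign_const (a : ℕ → ℕ → Bool) (τ : ℕ → Bool) (κ j : ℕ) (hj : row a τ j = κ) (i : ℕ)
    (hij : j ≤ i) : row a τ i = κ → xor (τ j) (a κ j) = xor (τ i) (a κ i) := by
  induction i, hij using Nat.le_induction with
  | base => intro _; rfl
  | succ i hij ih =>
    intro hi
    have h1 : row a τ j ≤ row a τ i := row_mono a τ hij
    have h2 : row a τ i ≤ row a τ (i + 1) := row_le a τ i
    have h3 : row a τ i = κ := by omega
    rw [ih h3]
    have h4 : ¬ mv a τ (row a τ i) i = true := by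
      intro h
      rw [row, if_pos h] at hi
      omega
    rw [h3] at h4
    simp only [mv] at h4
    revert h4
    generalize xor (τ i) (a κ i) = p
    generalize xor (τ (i + 1)) (a κ (i + 1)) = q
    revert p q
    decide

/-- the scale of the term `κ` at column `j` -/
noncomputable def U (a : ℕ → ℕ → Bool) (τ : ℕ → Bool) (e : ℕ) (S : ℝ) (j κ : ℕ) : ℝ :=
  (S ^ 2) ^ (κ * j) * (S⁻¹) ^ (∑ i ∈ Finset.range κ, (2 * lst a τ e i + 1))

theorem U_pos (a : ℕ → ℕ → Bool) (τ : ℕ → Bool) (e : ℕ) {S : ℝ} (hS : 0 < S) (j κ : ℕ) :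
    0 < U a τ e S j κ := by
  unfold U; positivity

theorem U_succ (a : ℕ → ℕ → Bool) (τ : ℕ → Bool) (e : ℕ) (S : ℝ) (j κ : ℕ) :
    U a τ e S j (κ + 1) = U a τ e S j κ * (S ^ (2 * j) * (S⁻¹) ^ (2 * lst a τ e κ + 1)) := by
  unfold U
  rw [Finset.sum_range_succ, pow_add, ← pow_mul, ← pow_mul]
  ring

theorem U_down (a : ℕ → ℕ → Bool) (τ : ℕ → Bool) {e : ℕ} {S : ℝ} (hS : 1 ≤ S) {j κ : ℕ}
    (hj : j ≤ e) (h : row a τ j ≤ κ) : S * U a τ e S j (κ + 1) ≤ U a τ e S j κ := by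
  have hS0 : 0 < S := by linarith
  have hL := (le_lst_iff a τ κ hj).2 h
  rw [U_succ]
  have h1 : S * (S ^ (2 * j) * (S⁻¹) ^ (2 * lst a τ e κ + 1)) ≤ 1 := by
    rw [← mul_assoc, ← pow_succ', inv_pow, ← div_eq_mul_inv, div_le_one (by positivity)]
    exact pow_le_pow_right₀ hS (by omega)
  calc S * (U a τ e S j κ * (S ^ (2 * j) * (S⁻¹) ^ (2 * lst a τ e κ + 1)))
      = U a τ e S j κ * (S * (S ^ (2 * j) * (S⁻¹) ^ (2 * lst a τ e κ + 1))) := by ring
    _ ≤ U a τ e S j κ * 1 := mul_le_mul_of_nonneg_left h1 (U_pos a τ e hS0 j κ).le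
    _ = _ := mul_one _

theorem U_up (a : ℕ → ℕ → Bool) (τ : ℕ → Bool) {e : ℕ} {S : ℝ} (hS : 1 ≤ S) {j κ : ℕ}
    (hj : j ≤ e) (h : κ < row a τ j) : S * U a τ e S j κ ≤ U a τ e S j (κ + 1) := by
  have hS0 : 0 < S := by linarith
  have hL : lst a τ e κ < j := by
    by_contra hc
    exact absurd ((le_lst_iff a τ κ hj).1 (not_lt.1 hc)) (by omega)
  rw [U_succ, mul_comm S]
  refine mul_le_mul_of_nonneg_left ?_ (U_pos a τ e hS0 j κ).le
  rw [inv_pow, ← div_eq_mul_inv, le_div_iff₀ (by positivity), ← pow_succ']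
  exact pow_le_pow_right₀ hS (by omega)

theorem U_ne (a : ℕ → ℕ → Bool) (τ : ℕ → Bool) {e : ℕ} {S : ℝ} (hS : 1 ≤ S) {j : ℕ}
    (hj : j ≤ e) {κ : ℕ} (h : κ ≠ row a τ j) : S * U a τ e S j κ ≤ U a τ e S j (row a τ j) := by
  have hS0 : 0 < S := by linarith
  have hpos : ∀ κ, 0 < U a τ e S j κ := fun κ => U_pos a τ e hS0 j κ
  rcases lt_or_gt_of_ne h with h | h
  · -- upward
    have key : ∀ m, κ + 1 + m ≤ row a τ j →
        S * U a τ e S j κ ≤ U a τ e S j (κ + 1 + m) := by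
      intro m
      induction m with
      | zero => intro hm; exact U_up a τ hS hj (by omega)
      | succ m ih =>
        intro hm
        have h1 := ih (by omega)
        have h2 := U_up a τ (κ := κ + 1 + m) hS hj (by omega)
        have h3 : U a τ e S j (κ + 1 + m) ≤ S * U a τ e S j (κ + 1 + m) := by
          have := hpos (κ + 1 + m)
          nlinarith
        rw [← add_assoc]
        linarith
    have := key (row a τ j - (κ + 1)) (by omega)
    rwa [show κ + 1 + (row a τ j - (κ + 1)) = row a τ j by omega] at this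
  · have key : ∀ m, S * U a τ e S j (row a τ j + 1 + m) ≤ U a τ e S j (row a τ j) := by
      intro m
      induction m with
      | zero => exact U_down a τ hS hj le_rfl
      | succ m ih =>
        have h2 := U_down a τ (κ := row a τ j + 1 + m) hS hj (by omega)
        have h3 : U a τ e S j (row a τ j + 1 + m) ≤ S * U a τ e S j (row a τ j + 1 + m) := by
          have := hpos (row a τ j + 1 + m)
          nlinarith
        rw [← add_assoc]
        linarith
    have := key (κ - (row a τ j + 1))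
    rwa [show row a τ j + 1 + (κ - (row a τ j + 1)) = κ by omega] at this

/-- a sign vector whose walker makes at most `d` moves is cut out by a functional -/
theorem cut (a : ℕ → ℕ → Bool) (τ : ℕ → Bool) (d e : ℕ) (hr : row a τ e ≤ d) (S : ℝ) (hS : 1 ≤ S)
    (hSd : (d : ℝ) < S) :
    ∃ y : Fin (d + 1) → ℝ, ∀ j ≤ e,
      0 < ((fun l : Fin (d + 1) => sg (a l j) * (S ^ 2) ^ ((l : ℕ) * j)) ⬝ᵥ y) * sg (τ j) := by
  have hS0 : 0 < S := by linarith
  set ε : ℕ → ℝ := fun κ => sg (τ (lst a τ e κ)) * sg (a κ (lst a τ e κ)) with hε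
  have hεpm : ∀ κ, ε κ = 1 ∨ ε κ = -1 := fun κ => pm_mul (sg_pm _) (sg_pm _)
  refine ⟨fun κ => ε κ * (S⁻¹) ^ (∑ i ∈ Finset.range κ, (2 * lst a τ e i + 1)), fun j hj => ?_⟩
  have hj' : row a τ j ≤ d := (row_mono a τ hj).trans hr
  set κ0 : Fin (d + 1) := ⟨row a τ j, by omega⟩ with hκ0
  have hdot : ((fun l : Fin (d + 1) => sg (a l j) * (S ^ 2) ^ ((l : ℕ) * j)) ⬝ᵥ
      fun κ : Fin (d + 1) => ε κ * (S⁻¹) ^ (∑ i ∈ Finset.range κ, (2 * lst a τ e i + 1))) *
        sg (τ j) = ∑ κ : Fin (d + 1), (sg (a κ j) * ε κ * sg (τ j)) * U a τ e S j κ := by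
    rw [dotProduct, Finset.sum_mul]
    refine Finset.sum_congr rfl fun κ _ => ?_
    unfold U
    ring
  rw [hdot, ← Finset.add_sum_erase _ _ (Finset.mem_univ κ0)]
  have hmain : sg (a κ0 j) * ε κ0 * sg (τ j) = 1 := by
    have h1 : row a τ (lst a τ e (row a τ j)) = row a τ j := by
      refine le_antisymm (row_lst a τ e _) ?_
      exact row_mono a τ ((le_lst_iff a τ _ hj).2 le_rfl)
    have h2 := sign_const a τ (row a τ j) j rfl _ ((le_lst_iff a τ _ hj).2 le_rfl) h1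
    simp only [hε, hκ0]
    revert h2
    generalize τ j = p
    generalize a (row a τ j) j = q
    generalize τ (lst a τ e (row a τ j)) = r
    generalize a (row a τ j) (lst a τ e (row a τ j)) = s
    cases p <;> cases q <;> cases r <;> cases s <;> simp [sg]
  have hothers : ∀ κ ∈ Finset.univ.erase κ0,
      -(U a τ e S j κ0 / S) ≤ (sg (a κ j) * ε κ * sg (τ j)) * U a τ e S j κ := by
    intro κ hκ
    have hne : (κ : ℕ) ≠ row a τ j := fun h => Finset.ne_of_mem_erase hκ (Fin.ext h)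
    have h1 := U_ne a τ hS hj hne
    have h2 : U a τ e S j κ ≤ U a τ e S j κ0 / S := by
      rw [le_div_iff₀ hS0, mul_comm]
      exact h1
    have h3 := U_pos a τ e hS0 j κ
    rcases pm_mul (pm_mul (sg_pm (a κ j)) (hεpm κ)) (sg_pm (τ j)) with h | h <;> rw [h] <;> linarith
  have h3 := Finset.sum_le_sum hothers
  rw [Finset.sum_const, Finset.card_erase_of_mem (Finset.mem_univ _), Finset.card_univ,
    Fintype.card_fin, nsmul_eq_mul, Nat.add_sub_cancel] at h3
  rw [hmain, one_mul]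
  have h4 := U_pos a τ e hS0 j κ0
  have h5 : (d : ℝ) * (U a τ e S j κ0 / S) < U a τ e S j κ0 := by
    rw [mul_div_assoc', div_lt_iff₀ hS0, mul_comm]
    exact mul_lt_mul_of_pos_left hSd h4
  linarith

end Pool.Agent.MP_e211d6_la
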