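import Pool.Agent.Lib_MP_e211d6_la.Up
import Pool.Agent.Lib_MP_e211d6_la.Low
import Pool.Agent.Lib_MP_e211d6_la.Real

/-!
# The extremal points
-/

open Matrix

namespace Pool.Agent.MP_e211d6_la

/-- the large parameter -/
noncomputable def par (d : ℕ) : ℝ := (d + 1).factorial + 1

theorem par_ge (d : ℕ) : ((d + 1).factorial : ℝ) ≤ par d := by unfold par; linarith

theorem one_le_fac (d : ℕ) : (1 : ℝ) ≤ (d + 1).factorial := by
  exact_mod_cast Nat.one_le_iff_ne_zero.2 (d + 1).factorial_ne_zero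

theorem one_lt_par (d : ℕ) : 1 < par d := by
  have := one_le_fac d
  unfold par; linarith

theorem lt_par (d : ℕ) : (d : ℝ) < par d := by
  have h : d + 1 ≤ (d + 1).factorial := Nat.self_le_factorial _
  have h' : ((d + 1 : ℕ) : ℝ) ≤ ((d + 1).factorial : ℝ) := by exact_mod_cast h
  push_cast at h'
  unfold par; linarith

theorem par_sq (d : ℕ) : ((d + 1).factorial : ℝ) ≤ par d ^ 2 := by
  have h1 := par_ge d
  have h2 := one_lt_par d
  nlinarith

/-- the points -/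
noncomputable def pt (d : ℕ) (j : ℕ) : EuclideanSpace ℝ (Fin d) :=
  WithLp.toLp 2 fun l : Fin d => sg (adv (l + 1) j) * (par d ^ 2) ^ (((l : ℕ) + 1) * j)

theorem cons_pt (d j : ℕ) : (Fin.cons 1 (fun m => pt d j m) : Fin (d + 1) → ℝ) =
    fun l : Fin (d + 1) => sg (adv l j) * (par d ^ 2) ^ ((l : ℕ) * j) := by
  funext l
  refine Fin.cases ?_ (fun m => ?_) l
  · simp [adv, sg]
  · simp [pt]

theorem pt_injective (d : ℕ) (hd : 1 ≤ d) : Function.Injective (pt d) := by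
  intro i j h
  have h1 := congrArg (fun p : EuclideanSpace ℝ (Fin d) => |p ⟨0, hd⟩|) h
  simp only [pt, abs_mul] at h1
  have hsg : ∀ b : Bool, |sg b| = 1 := fun b => by cases b <;> simp [sg]
  rw [hsg, hsg, one_mul, one_mul, abs_of_pos (by have := one_lt_par d; positivity),
    abs_of_pos (by have := one_lt_par d; positivity)] at h1
  have h2 : 1 < par d ^ 2 := by
    have := one_lt_par d
    nlinarith
  have h3 := pow_right_injective₀ (by linarith) h2.ne' h1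
  simpa using h3

theorem lawrence_pt (d n : ℕ) (i : Fin (d + 1) → Fin n) (hi : StrictMono i) :
    0 < (∏ k : Fin (d + 1), sg (adv k (i k))) * Matrix.det (Matrix.of fun k l : Fin (d + 1) =>
      (Fin.cons 1 (fun m => pt d (i k) m) : Fin (d + 1) → ℝ) l) := by
  have := det_pos (fun (k : Fin (d + 1)) (j : Fin n) => sg (adv k j)) (fun k j => sg_pm _)
    (par d ^ 2) (par_sq d) i hi
  simp only [cons_pt]
  exact this

theorem nosep {d : ℕ} (P Q : Set (EuclideanSpace ℝ (Fin d))) (y : Fin (d + 1) → ℝ)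
    (hP : ∀ p ∈ P, 0 < (Fin.cons 1 (fun m => p m) : Fin (d + 1) → ℝ) ⬝ᵥ y)
    (hQ : ∀ p ∈ Q, (Fin.cons 1 (fun m => p m) : Fin (d + 1) → ℝ) ⬝ᵥ y < 0) :
    ¬ (convexHull ℝ P ∩ convexHull ℝ Q).Nonempty := by
  have haff : ∀ (p q : EuclideanSpace ℝ (Fin d)) (a b : ℝ), a + b = 1 →
      (Fin.cons 1 (fun m => (a • p + b • q) m) : Fin (d + 1) → ℝ) ⬝ᵥ y =
        a • ((Fin.cons 1 (fun m => p m) : Fin (d + 1) → ℝ) ⬝ᵥ y) +
        b • ((Fin.cons 1 (fun m => q m) : Fin (d + 1) → ℝ) ⬝ᵥ y) := by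
    intro p q a b hab
    simp only [dotProduct, Fin.sum_univ_succ, Fin.cons_zero, Fin.cons_succ, smul_eq_mul,
      PiLp.add_apply, PiLp.smul_apply, mul_add, Finset.mul_sum, add_mul, Finset.sum_add_distrib]
    have e : 1 * y 0 = a * (1 * y 0) + b * (1 * y 0) := by
      rw [← add_mul, hab]; ring
    simp only [mul_assoc]
    linear_combination e
  have h1 : convexHull ℝ P ⊆ {p | 0 < (Fin.cons 1 (fun m => p m) : Fin (d + 1) → ℝ) ⬝ᵥ y} := by
    refine convexHull_min hP ?_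
    intro p hp q hq a b ha hb hab
    simp only [Set.mem_ofPred_eq] at hp hq ⊢
    rw [haff p q a b hab]
    exact (convex_Ioi (0 : ℝ)) hp hq ha hb hab
  have h2 : convexHull ℝ Q ⊆ {p | (Fin.cons 1 (fun m => p m) : Fin (d + 1) → ℝ) ⬝ᵥ y < 0} := by
    refine convexHull_min hQ ?_
    intro p hp q hq a b ha hb hab
    simp only [Set.mem_ofPred_eq] at hp hq ⊢
    rw [haff p q a b hab]
    exact (convex_Iio (0 : ℝ)) hp hq ha hb hab
  rintro ⟨p, hp, hq⟩
  have h3 := h1 hp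
  have h4 := h2 hq
  simp only [Set.mem_ofPred_eq] at h3 h4
  exact lt_asymm h3 h4

/-- no partition of the first `e + 1` points has tolerance one -/
theorem lower (d e : ℕ) (h : 3 * e < 5 * d + 7) (A : Set (EuclideanSpace ℝ (Fin d))) :
    ∃ y : Fin (d + 1) → ℝ, (∀ j ≤ e,
      (pt d j ∈ A → 0 < (Fin.cons 1 (fun m => pt d j m) : Fin (d + 1) → ℝ) ⬝ᵥ y) ∧
      (pt d j ∉ A → (Fin.cons 1 (fun m => pt d j m) : Fin (d + 1) → ℝ) ⬝ᵥ y < 0)) ∨
      ∃ i ≤ e, ∀ j ≤ e, j ≠ i → 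
      (pt d j ∈ A → 0 < (Fin.cons 1 (fun m => pt d j m) : Fin (d + 1) → ℝ) ⬝ᵥ y) ∧
      (pt d j ∉ A → (Fin.cons 1 (fun m => pt d j m) : Fin (d + 1) → ℝ) ⬝ᵥ y < 0) := by
  classical
  set τ : ℕ → Bool := fun j => decide (pt d j ∈ A) with hτ
  have key : ∀ (y : Fin (d + 1) → ℝ) (j : ℕ),
      0 < ((fun l : Fin (d + 1) => sg (adv l j) * (par d ^ 2) ^ ((l : ℕ) * j)) ⬝ᵥ y) * sg (τ j) →
      (pt d j ∈ A → 0 < (Fin.cons 1 (fun m => pt d j m) : Fin (d + 1) → ℝ) ⬝ᵥ y) ∧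
      (pt d j ∉ A → (Fin.cons 1 (fun m => pt d j m) : Fin (d + 1) → ℝ) ⬝ᵥ y < 0) := by
    intro y j hj
    rw [← cons_pt] at hj
    refine ⟨fun hA => ?_, fun hA => ?_⟩
    · have h1 : τ j = true := by simp [hτ, hA]
      rw [h1] at hj
      simpa [sg] using hj
    · have h1 : τ j = false := by simp [hτ, hA]
      rw [h1] at hj
      simpa [sg] using hj
  rcases low_rows d e h τ with hr | ⟨i, hi, hr⟩
  · obtain ⟨y, hy⟩ := cut adv τ d e hr (par d) (one_lt_par d).le (lt_par d)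
    exact ⟨y, Or.inl fun j hj => key y j (hy j hj)⟩
  · obtain ⟨y, hy⟩ := cut adv (flp i τ) d e hr (par d) (one_lt_par d).le (lt_par d)
    refine ⟨y, Or.inr ⟨i, hi, fun j hj hji => key y j ?_⟩⟩
    have := hy j hj
    rwa [flp_of_ne τ hji] at this

end Pool.Agent.MP_e211d6_la
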