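import Pool.Agent.Lib_MP_e211d6_la.Lin

/-!
# The upper bound
-/

open Matrix

namespace Pool.Agent.MP_e211d6_la

/-- a continuous linear functional minus a constant as a dot product with homogeneous coordinates -/
theorem functional_eq {d : ℕ} (f : StrongDual ℝ (EuclideanSpace ℝ (Fin d))) (u : ℝ) :
    ∃ y : Fin (d + 1) → ℝ, ∀ x : EuclideanSpace ℝ (Fin d),
      (Fin.cons 1 (fun l => x l) : Fin (d + 1) → ℝ) ⬝ᵥ y = u - f x := by
  refine ⟨Fin.cons u fun l => - ((InnerProductSpace.toDual ℝ _).symm f) l, fun x => ?_⟩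
  have h := InnerProductSpace.toDual_symm_apply (𝕜 := ℝ) (x := x) (y := f)
  rw [PiLp.inner_apply] at h
  simp only [dotProduct, Fin.sum_univ_succ, Fin.cons_zero, Fin.cons_succ, one_mul, mul_neg,
    Finset.sum_neg_distrib]
  rw [← h]
  simp only [sub_eq_add_neg]
  congr 2

theorem upper {d n : ℕ} (x : Fin n → EuclideanSpace ℝ (Fin d)) (hx : Function.Injective x)
    (A : Fin (d + 1) → Fin n → ℝ) (hA : ∀ k j, A k j = 1 ∨ A k j = -1)
    (hdet : ∀ i : Fin (d + 1) → Fin n, StrictMono i →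
      0 < (∏ k, A k (i k)) *
        Matrix.det (Matrix.of fun k l => (Fin.cons 1 (fun m => x (i k) m) : Fin (d + 1) → ℝ) l))
    (hn : 5 * d + 10 ≤ 3 * n) :
    ∃ τ : Fin n → Bool, ∀ Y : Set (EuclideanSpace ℝ (Fin d)), Y.Subsingleton →
      (convexHull ℝ (x '' {j | τ j = true} \ Y) ∩
        convexHull ℝ (x '' {j | τ j = false} \ Y)).Nonempty := by
  obtain ⟨τ, h0, h1⟩ := exists_rows (tab A) (n - 1) (d + 1) (by omega)
  refine ⟨fun j => τ j, fun Y hY => ?_⟩
  by_contra hne
  rw [Set.not_nonempty_iff_eq_empty, ← Set.disjoint_iff_inter_eq_empty] at hne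
  obtain ⟨f, u, w, hu, huw, hw⟩ := geometric_hahn_banach_compact_closed
    (convex_convexHull ℝ _)
    (Set.Finite.isCompact_convexHull ℝ ((Set.toFinite (x '' {j | τ j = true})).sdiff))
    (convex_convexHull ℝ _)
    (Set.Finite.isClosed_convexHull ℝ ((Set.toFinite (x '' {j | τ j = false})).sdiff)) hne
  obtain ⟨y, hy⟩ := functional_eq f u
  have hpos : ∀ j : Fin n, x j ∉ Y →
      0 < ((Fin.cons 1 (fun m => x j m) : Fin (d + 1) → ℝ) ⬝ᵥ y) * sg (τ j) := by
    intro j hj
    rw [hy]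
    cases hτ : τ j with
    | false =>
      have := hw (x j) (subset_convexHull ℝ _ ⟨⟨j, hτ, rfl⟩, hj⟩)
      simp only [sg, Bool.false_eq_true, if_false]
      linarith
    | true =>
      have := hu (x j) (subset_convexHull ℝ _ ⟨⟨j, hτ, rfl⟩, hj⟩)
      simp only [sg, if_true]
      linarith
  have key : ∀ σ : ℕ → Bool, d + 1 ≤ row (tab A) σ (n - 1) →
      (∀ j : Fin n, 0 ≤ ((Fin.cons 1 (fun m => x j m) : Fin (d + 1) → ℝ) ⬝ᵥ y) * sg (σ j)) →
      False := by
    intro σ hσ hF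
    obtain ⟨s, hs, hs0⟩ := chain_elems
      (fun j => (Fin.cons 1 (fun m => x j m) : Fin (d + 1) → ℝ)) A hA hdet σ (by omega) hσ y hF
    have hJ : ∀ k, x (s k) ∈ Y := by
      intro k
      by_contra hk
      have h2 := hpos (s k) hk
      have h3 := hs0 k
      rw [h3, zero_mul] at h2
      exact lt_irrefl _ h2
    have h4 : s 0 = s 1 := hx (hY (hJ 0) (hJ 1))
    exact absurd (hs.injective h4) (by simp)
  by_cases hall : ∀ j : Fin n,
      0 ≤ ((Fin.cons 1 (fun m => x j m) : Fin (d + 1) → ℝ) ⬝ᵥ y) * sg (τ j)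
  · exact key τ h0 hall
  · push Not at hall
    obtain ⟨i, hi⟩ := hall
    have hiY : x i ∈ Y := by
      by_contra hk
      exact lt_asymm hi (hpos i hk)
    refine key (flp i τ) (h1 i (by have := i.2; omega)) fun j => ?_
    by_cases hj : j = i
    · subst hj
      rw [flp_self, sg_not, mul_neg]
      linarith
    · have hjY : x j ∉ Y := fun h => hj (hx (hY h hiY))
      rw [flp_of_ne τ (fun h => hj (Fin.ext h))]
      exact (hpos j hjY).le

end Pool.Agent.MP_e211d6_la
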