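import Pool.Agent.Lib_MP_e211d6_la.Game

/-!
# Walkers in a sign table

`a k j` is the sign (as a Boolean) in row `k` and column `j` of a table, `τ j` a sign vector.
-/

namespace Pool.Agent.MP_e211d6_la

/-- whether the walker in row `k` moves at the edge `j → j+1` -/
def mv (a : ℕ → ℕ → Bool) (τ : ℕ → Bool) (k j : ℕ) : Bool :=
  xor (xor (τ j) (a k j)) (xor (τ (j + 1)) (a k (j + 1)))

/-- the row of the walker at column `j` -/
def row (a : ℕ → ℕ → Bool) (τ : ℕ → Bool) : ℕ → ℕ
  | 0 => 0
  | j + 1 => row a τ j + (if mv a τ (row a τ j) j = true then 1 else 0)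

/-- flip one sign -/
def flp (i : ℕ) (τ : ℕ → Bool) : ℕ → Bool := Function.update τ i (!τ i)

theorem flp_self (i : ℕ) (τ : ℕ → Bool) : flp i τ i = !τ i := by simp [flp]

theorem flp_of_ne {i j : ℕ} (τ : ℕ → Bool) (h : j ≠ i) : flp i τ j = τ j := by
  simp [flp, Function.update_of_ne h]

/-- the colours of the edge `j → j+1` -/
def cc (a : ℕ → ℕ → Bool) (j : ℕ) (k : ℤ) : Bool := xor (a k.toNat j) (a k.toNat (j + 1))

/-- the colour that moves -/
def tt (τ : ℕ → Bool) (j : ℕ) : Bool := !(xor (τ j) (τ (j + 1)))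

theorem mv_iff (a : ℕ → ℕ → Bool) (τ : ℕ → Bool) (k j : ℕ) :
    mv a τ k j = true ↔ cc a j (k : ℤ) = tt τ j := by
  simp only [mv, cc, tt, Int.toNat_natCast]
  generalize τ j = p
  generalize τ (j + 1) = q
  generalize a k j = r
  generalize a k (j + 1) = s
  revert p q r s
  decide

theorem row_succ_int (a : ℕ → ℕ → Bool) (τ : ℕ → Bool) (j : ℕ) :
    ((row a τ (j + 1) : ℕ) : ℤ) =
      (row a τ j : ℤ) + (if cc a j (row a τ j : ℤ) = tt τ j then 1 else 0) := by
  rw [row]
  by_cases h : mv a τ (row a τ j) j = true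
  · rw [if_pos h, if_pos ((mv_iff _ _ _ _).1 h)]; push_cast; ring
  · rw [if_neg h, if_neg (fun h' => h ((mv_iff _ _ _ _).2 h'))]; push_cast; ring

theorem tt_flp_of_lt {i j : ℕ} (τ : ℕ → Bool) (h : i < j) : tt (flp i τ) j = tt τ j := by
  simp only [tt, flp_of_ne τ (show j ≠ i by omega), flp_of_ne τ (show j + 1 ≠ i by omega)]

theorem tt_flp_self (j : ℕ) (τ : ℕ → Bool) : tt (flp j τ) j = !tt τ j := by
  simp only [tt, flp_self, flp_of_ne τ (show j + 1 ≠ j by omega)]
  generalize τ j = p
  generalize τ (j + 1) = q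
  revert p q
  decide

theorem tt_flp_succ (j : ℕ) (τ : ℕ → Bool) : tt (flp (j + 1) τ) j = !tt τ j := by
  simp only [tt, flp_self, flp_of_ne τ (show j ≠ j + 1 by omega)]
  generalize τ j = p
  generalize τ (j + 1) = q
  revert p q
  decide

theorem row_congr (a : ℕ → ℕ → Bool) {τ τ' : ℕ → Bool} (j : ℕ) (h : ∀ i ≤ j, τ i = τ' i) :
    row a τ j = row a τ' j := by
  induction j with
  | zero => rfl
  | succ j ih =>
    have ih' := ih fun i hi => h i (by omega)
    have hm : ∀ k, mv a τ k j = mv a τ' k j := fun k => by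
      simp only [mv]
      rw [h j (by omega), h (j + 1) le_rfl]
    rw [row, row, ih', hm]

theorem row_congr_a {a a' : ℕ → ℕ → Bool} (τ : ℕ → Bool) (j : ℕ)
    (h : ∀ k, ∀ i ≤ j, a k i = a' k i) :
    row a τ j = row a' τ j := by
  induction j with
  | zero => rfl
  | succ j ih =>
    have ih' := ih fun k i hi => h k i (by omega)
    have hm : ∀ k, mv a τ k j = mv a' τ k j := fun k => by
      simp only [mv]
      rw [h k j (by omega), h k (j + 1) le_rfl]
    rw [row, row, ih', hm]

theorem row_flp_of_lt (a : ℕ → ℕ → Bool) (τ : ℕ → Bool) {i j : ℕ} (h : j < i) :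
    row a (flp i τ) j = row a τ j :=
  row_congr a j fun l hl => flp_of_ne τ (by omega)

theorem ite_not_eq (x t : Bool) : (if x = !t then (1 : ℤ) else 0) = (if x = t then 0 else 1) := by
  revert x t
  decide

theorem run_inv (a : ℕ → ℕ → Bool) (τ : ℕ → Bool) (j : ℕ) :
    (run (cc a) (tt τ) j).1 = (row a τ j : ℤ) ∧
    (run (cc a) (tt τ) j).2.1 = (row a (flp j τ) j : ℤ) ∧
    (run (cc a) (tt τ) j).2.2 ≤ (row a τ j : ℤ) ∧
    (∀ i < j, (run (cc a) (tt τ) j).2.2 ≤ (row a (flp i τ) j : ℤ)) ∧
    ((run (cc a) (tt τ) j).2.2 = (row a τ j : ℤ) ∨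
      ∃ i < j, (run (cc a) (tt τ) j).2.2 = (row a (flp i τ) j : ℤ)) := by
  induction j with
  | zero => simp [run, row]
  | succ j ih =>
    obtain ⟨h1, h2, h3, h4, h5⟩ := ih
    set s := run (cc a) (tt τ) j with hs
    have hr : run (cc a) (tt τ) (j + 1) = stp (cc a j) (tt τ j) s := rfl
    have hi : ∀ i < j, ((row a (flp i τ) (j + 1) : ℕ) : ℤ) =
        (row a (flp i τ) j : ℤ) + (if cc a j (row a (flp i τ) j : ℤ) = tt τ j then 1 else 0) := by
      intro i hij
      rw [row_succ_int, tt_flp_of_lt τ hij]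
    have hj : ((row a (flp j τ) (j + 1) : ℕ) : ℤ) =
        (row a (flp j τ) j : ℤ) + (if cc a j (row a (flp j τ) j : ℤ) = tt τ j then 0 else 1) := by
      rw [row_succ_int, tt_flp_self, ite_not_eq]
    have hz := row_succ_int a τ j
    rw [hr]
    refine ⟨?_, ?_, ?_, ?_, ?_⟩
    · simp only [stp]
      rw [h1, hz]
    · simp only [stp]
      rw [row_succ_int, tt_flp_succ, ite_not_eq, row_flp_of_lt a τ (Nat.lt_succ_self j), h1]
    · simp only [stp]
      refine (min_le_left _ _).trans ?_
      rw [hz]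
      exact mv_mono _ _ h3
    · intro i hi'
      simp only [stp]
      rcases Nat.lt_succ_iff_lt_or_eq.1 hi' with h | rfl
      · refine (min_le_left _ _).trans ?_
        rw [hi i h]
        exact mv_mono _ _ (h4 i h)
      · refine (min_le_right _ _).trans ?_
        rw [hj, h2]
    · simp only [stp]
      rcases min_choice (s.2.2 + (if cc a j s.2.2 = tt τ j then 1 else 0))
        (s.2.1 + (if cc a j s.2.1 = tt τ j then 0 else 1)) with h | h
      · rw [h]
        rcases h5 with h5 | ⟨i, hij, h5⟩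
        · left
          rw [h5, hz]
        · right
          exact ⟨i, by omega, by rw [h5, hi i hij]⟩
      · rw [h]
        right
        exact ⟨j, by omega, by rw [h2, hj]⟩

/-- a sign vector with given moving colours -/
def mk (t : ℕ → Bool) : ℕ → Bool
  | 0 => false
  | j + 1 => xor (mk t j) (!t j)

theorem tt_mk (t : ℕ → Bool) : tt (mk t) = t := by
  funext j
  simp only [tt, mk]
  generalize mk t j = p
  generalize t j = q
  revert p q
  decide

/-- the upper bound of the game in terms of walkers -/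
theorem exists_rows (a : ℕ → ℕ → Bool) (e r : ℕ) (h : 5 * r + 2 ≤ 3 * e) :
    ∃ τ : ℕ → Bool, r ≤ row a τ e ∧ ∀ i ≤ e, r ≤ row a (flp i τ) e := by
  obtain ⟨t, ht⟩ := game_run (cc a) e
  refine ⟨mk t, ?_⟩
  have hr : (r : ℤ) ≤ (3 * (e : ℤ) - 2) / 5 := by omega
  obtain ⟨-, h2, h3, h4, -⟩ := run_inv a (mk t) e
  rw [tt_mk] at h2 h3 h4
  have h5 := hr.trans ht
  rw [le_min_iff] at h5
  refine ⟨by exact_mod_cast h5.2.trans h3, fun i hi => ?_⟩
  rcases Nat.lt_or_ge i e with h6 | h6
  · exact_mod_cast h5.2.trans (h4 i h6)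
  · obtain rfl : i = e := le_antisymm hi h6
    rw [h2] at h5
    exact_mod_cast h5.1

/-- the lower bound side in terms of walkers -/
theorem rows_of_run (a : ℕ → ℕ → Bool) (e r : ℕ) (τ : ℕ → Bool)
    (h : min (run (cc a) (tt τ) e).2.1 (run (cc a) (tt τ) e).2.2 < (r : ℤ)) :
    row a τ e < r ∨ ∃ i ≤ e, row a (flp i τ) e < r := by
  obtain ⟨-, h2, -, -, h5⟩ := run_inv a τ e
  rcases min_lt_iff.1 h with h6 | h6
  · right
    refine ⟨e, le_rfl, ?_⟩
    rw [h2] at h6
    exact_mod_cast h6
  · rcases h5 with h5 | ⟨i, hi, h5⟩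
    · left
      rw [h5] at h6
      exact_mod_cast h6
    · right
      rw [h5] at h6
      exact ⟨i, hi.le, by exact_mod_cast h6⟩

theorem row_le (a : ℕ → ℕ → Bool) (τ : ℕ → Bool) (j : ℕ) : row a τ j ≤ row a τ (j + 1) := by
  rw [row]; omega

theorem row_mono (a : ℕ → ℕ → Bool) (τ : ℕ → Bool) : Monotone (row a τ) :=
  monotone_nat_of_le_succ (row_le a τ)

/-- entry times of the walker -/
theorem chain (a : ℕ → ℕ → Bool) (τ : ℕ → Bool) (j : ℕ) : ∃ s : ℕ → ℕ,
    (∀ i < row a τ j, s i < s (i + 1)) ∧ s (row a τ j) ≤ j ∧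
    (∀ i < row a τ j, xor (τ (s i)) (a i (s i)) ≠ xor (τ (s (i + 1))) (a i (s (i + 1)))) ∧
    xor (τ (s (row a τ j))) (a (row a τ j) (s (row a τ j))) =
      xor (τ j) (a (row a τ j) j) := by
  induction j with
  | zero => exact ⟨fun _ => 0, by simp [row], by simp [row], by simp [row], by simp [row]⟩
  | succ j ih =>
    obtain ⟨s, h1, h2, h3, h4⟩ := ih
    by_cases hm : mv a τ (row a τ j) j = true
    · have hr : row a τ (j + 1) = row a τ j + 1 := by rw [row, if_pos hm]
      rw [hr]
      set k := row a τ j with hk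
      refine ⟨Function.update s (k + 1) (j + 1), ?_, ?_, ?_, ?_⟩
      · intro i hi
        rcases Nat.lt_succ_iff_lt_or_eq.1 hi with h | rfl
        · rw [Function.update_of_ne (by omega), Function.update_of_ne (by omega)]
          exact h1 i h
        · rw [Function.update_of_ne (by omega), Function.update_self]
          omega
      · rw [Function.update_self]
      · intro i hi
        rcases Nat.lt_succ_iff_lt_or_eq.1 hi with h | rfl
        · rw [Function.update_of_ne (by omega), Function.update_of_ne (by omega)]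
          exact h3 i h
        · rw [Function.update_of_ne (by omega), Function.update_self, h4]
          intro h5
          simp only [mv] at hm
          rw [h5] at hm
          simp at hm
      · rw [Function.update_self]
    · have hr : row a τ (j + 1) = row a τ j := by rw [row, if_neg hm]; omega
      rw [hr]
      refine ⟨s, h1, by omega, h3, ?_⟩
      rw [h4]
      simp only [mv] at hm
      revert hm
      generalize xor (τ j) (a (row a τ j) j) = p
      generalize xor (τ (j + 1)) (a (row a τ j) (j + 1)) = q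
      revert p q
      decide

end Pool.Agent.MP_e211d6_la
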